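import Mathlib

namespace Pool.Agent.Results.MP_27a5c7_al.SumMaps

open Finset MvPolynomial

/-- The polynomial algebra in `d` variables over the field with two elements. -/
abbrev P (d : ℕ) := MvPolynomial (Fin d) (ZMod 2)

/-- The total Steenrod square, the algebra homomorphism with `x_i ↦ x_i + x_i ^ 2 T`; the power of
`T` records the degree of the operation. -/
noncomputable def totalSq (d : ℕ) : P d →ₐ[ZMod 2] Polynomial (P d) :=
  MvPolynomial.aeval (fun i => Polynomial.C (X i) + Polynomial.C (X i ^ 2) * Polynomial.X)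

/-- The Steenrod square `Sq ^ k`. -/
noncomputable def Sq {d : ℕ} (k : ℕ) (f : P d) : P d := (totalSq d f).coeff k

/-- The hit elements, i.e. the span of the images of all `Sq ^ k` with `k` positive. Every element
of positive degree of the Steenrod algebra is a sum of products of such squares, so this is
the image of the augmentation ideal. -/
noncomputable def hits (d : ℕ) : Submodule (ZMod 2) (P d) :=
  Submodule.span (ZMod 2) {h | ∃ (k : ℕ) (g : P d), 0 < k ∧ h = Sq k g}

/-- The monomial with exponent vector `e`. -/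
noncomputable def mono {d : ℕ} (e : Fin d → ℕ) : P d := ∏ i, X i ^ e i

/-- The weight vector (indexed from 0): `wt e i` counts the exponents with binary digit `i` set. -/
def wt {d : ℕ} (e : Fin d → ℕ) (i : ℕ) : ℕ := ∑ j, ((e j).testBit i).toNat

/-- The left lexicographic order. -/
def LexLT {ι : Type} [LT ι] (a b : ι → ℕ) : Prop := ∃ i, (∀ j, j < i → a j = b j) ∧ a i < b i

/-- The order on monomials of equal degree: weight vector first, then exponent vector. -/
def Smaller {d : ℕ} (u v : Fin d → ℕ) : Prop :=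
  ∑ i, u i = ∑ i, v i ∧ (LexLT (wt u) (wt v) ∨ (wt u = wt v ∧ LexLT u v))

/-- A monomial is inadmissible when it is congruent, modulo hit elements, to a (possibly empty)
sum of smaller monomials of the same degree. -/
def Inadmissible {d : ℕ} (u : Fin d → ℕ) : Prop :=
  ∃ L : List (Fin d → ℕ), (∀ y ∈ L, Smaller y u) ∧ mono u - (L.map mono).sum ∈ hits d

/-- Sanity check: `Sq ^ 1 x_i = x_i ^ 2`. -/
theorem Sq_one_X {d : ℕ} (i : Fin d) : Sq 1 (X i : P d) = X i ^ 2 := by
  simp only [Sq, totalSq, aeval_X, Polynomial.coeff_add, Polynomial.coeff_C_mul,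
    Polynomial.coeff_X_one, mul_one]
  rw [Polynomial.coeff_C_ne_zero one_ne_zero, zero_add]

/-- Sanity check: the Cartan formula. -/
theorem Sq_mul {d : ℕ} (k : ℕ) (f g : P d) :
    Sq k (f * g) = ∑ ij ∈ Finset.HasAntidiagonal.antidiagonal k, Sq ij.1 f * Sq ij.2 g := by
  simp [Sq, Polynomial.coeff_mul]

/-! ### Linear substitutions -/

noncomputable def subst {d e : ℕ} (g : Fin d → Finset (Fin e)) : P d →ₐ[ZMod 2] P e :=
  MvPolynomial.aeval (fun i => ∑ j ∈ g i, X j)

theorem totalSq_subst {d e : ℕ} (g : Fin d → Finset (Fin e)) (f : P d) :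
    totalSq e (subst g f) = Polynomial.mapAlgHom (subst g) (totalSq d f) := by
  have : (totalSq e).comp (subst g) = (Polynomial.mapAlgHom (subst g)).comp (totalSq d) := by
    apply MvPolynomial.algHom_ext
    intro i
    simp only [AlgHom.comp_apply, totalSq, subst, aeval_X, map_sum, map_add, map_mul,
      Polynomial.coe_mapAlgHom]
    simp [Finset.sum_add_distrib, ← Finset.sum_mul, sum_pow_char 2]
  exact DFunLike.congr_fun this f

theorem subst_Sq {d e : ℕ} (g : Fin d → Finset (Fin e)) (k : ℕ) (f : P d) :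
    subst g (Sq k f) = Sq k (subst g f) := by
  simp [Sq, totalSq_subst, Polynomial.mapAlgHom]

theorem subst_hits {d e : ℕ} (g : Fin d → Finset (Fin e)) {f : P d} (hf : f ∈ hits d) :
    subst g f ∈ hits e := by
  induction hf using Submodule.span_induction with
  | mem x hx =>
    obtain ⟨k, h, hk, rfl⟩ := hx
    exact Submodule.subset_span ⟨k, subst g h, hk, subst_Sq g k h⟩
  | zero => simp
  | add x y _ _ hx hy => rw [map_add]; exact Submodule.add_mem _ hx hy
  | smul a x _ hx => rw [map_smul]; exact Submodule.smul_mem _ _ hx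


/-! ### Binary expansions -/

def val (E : Finset ℕ) : ℕ := ∑ b ∈ E, 2 ^ b

def bits (a : ℕ) : Finset ℕ := a.bitIndices.toFinset

theorem mem_bits {a b : ℕ} : b ∈ bits a ↔ a.testBit b = true := by
  simp [bits]

theorem val_bits (a : ℕ) : val (bits a) = a := Finset.sum_toFinset_bitIndices_two_pow a

theorem bits_val (E : Finset ℕ) : bits (val E) = E := Finset.toFinset_bitIndices_sum_two_pow E

theorem testBit_val (E : Finset ℕ) (b : ℕ) : (val E).testBit b = decide (b ∈ E) := by
  by_cases h : b ∈ E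
  · rw [← bits_val E, mem_bits] at h
    rw [h, eq_comm, decide_eq_true_iff]; rwa [← bits_val E, mem_bits]
  · rw [← bits_val E, mem_bits] at h
    simp only [Bool.not_eq_true] at h
    rw [h, eq_comm, decide_eq_false_iff_not, ← bits_val E, mem_bits, h]; simp

theorem val_range (r : ℕ) : val (range r) = 2 ^ r - 1 := by
  unfold val; rw [Nat.geomSum_eq (le_refl 2)]; simp

theorem val_union {A B : Finset ℕ} (h : Disjoint A B) : val (A ∪ B) = val A + val B :=
  Finset.sum_union h

theorem val_sdiff_add {A B : Finset ℕ} (h : B ⊆ A) : val (A \ B) + val B = val A :=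
  Finset.sum_sdiff h

theorem bits_full (r : ℕ) : bits (2 ^ r - 1) = range r := by
  rw [← val_range, bits_val]

/-- fewer binary digits than `r` if smaller than `2 ^ r - 1` -/
theorem card_bits_lt {a r : ℕ} (h : a < 2 ^ r - 1) : (bits a).card < r := by
  have hsub : bits a ⊆ range r := by
    intro b hb
    rw [mem_bits] at hb
    rw [mem_range]
    by_contra hc
    have h1 := Nat.ge_two_pow_of_testBit hb
    have h2 : 2 ^ r ≤ 2 ^ b := Nat.pow_le_pow_right (by norm_num) (by omega)
    omega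
  have hne : bits a ≠ range r := by
    intro he
    have := val_bits a
    rw [he, val_range] at this
    omega
  calc (bits a).card < (range r).card := Finset.card_lt_card (Finset.ssubset_iff_subset_ne.2 ⟨hsub, hne⟩)
    _ = r := card_range r

/-! ### Monomials -/

theorem mono_add {d : ℕ} (e f : Fin d → ℕ) : mono (e + f) = mono e * mono f := by
  simp [mono, pow_add, Finset.prod_mul_distrib]

theorem mono_single {d : ℕ} (a : Fin d) (v : ℕ) : mono (Pi.single a v) = (X a : P d) ^ v := by
  unfold mono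
  rw [Finset.prod_eq_single a]
  · simp
  · intro b _ hb; simp [Pi.single_eq_of_ne hb]
  · simp

theorem mono_zero {d : ℕ} : mono (0 : Fin d → ℕ) = 1 := by simp [mono]

theorem mono_mul_mem {n : ℕ} {N : Submodule (ZMod 2) (P n)} {p : (Fin n → ℕ) → Prop}
    (w : Fin n → ℕ) {f : P n} (hf : f ∈ Submodule.span (ZMod 2) {h | ∃ s, p s ∧ h = mono s})
    (h : ∀ s, p s → mono (w + s) ∈ N) : mono w * f ∈ N := by
  induction hf using Submodule.span_induction with
  | mem x hx =>
    obtain ⟨s, hs, rfl⟩ := hx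
    rw [← mono_add]; exact h s hs
  | zero => simp
  | add x y _ _ hx hy => rw [mul_add]; exact Submodule.add_mem _ hx hy
  | smul a x _ hx => rw [mul_smul_comm]; exact Submodule.smul_mem _ _ hx

/-! ### The averaged power `q S E` -/

noncomputable def q {n : ℕ} (S : Finset (Fin n)) (E : Finset ℕ) : P n :=
  ∑ I ∈ S.powerset, ∏ b ∈ E, (∑ i ∈ I, (X i : P n)) ^ 2 ^ b

theorem q_empty {n : ℕ} (E : Finset ℕ) : q (∅ : Finset (Fin n)) E = if E = ∅ then 1 else 0 := by
  unfold q
  split_ifs with h
  · simp [h]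
  · obtain ⟨b, hb⟩ := Finset.nonempty_iff_ne_empty.2 h
    simp only [powerset_empty, sum_singleton, sum_empty]
    apply Finset.prod_eq_zero hb
    exact zero_pow (by positivity)

theorem q_insert {n : ℕ} {S : Finset (Fin n)} {a : Fin n} (ha : a ∉ S) (E : Finset ℕ) :
    q (insert a S) E = ∑ B ∈ E.powerset.erase ∅, (X a : P n) ^ val B * q S (E \ B) := by
  unfold q
  rw [Finset.sum_powerset_insert ha, ← Finset.sum_add_distrib]
  simp_rw [Finset.mul_sum]
  rw [Finset.sum_comm]
  apply Finset.sum_congr rfl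
  intro I hI
  have haI : a ∉ I := fun h => ha (Finset.mem_powerset.1 hI h)
  have h1 : ∏ b ∈ E, (∑ i ∈ insert a I, (X i : P n)) ^ 2 ^ b
      = ∑ B ∈ E.powerset, X a ^ val B * ∏ b ∈ E \ B, (∑ i ∈ I, (X i : P n)) ^ 2 ^ b := by
    rw [Finset.sum_insert haI]
    have : ∀ b ∈ E, (X a + ∑ i ∈ I, (X i : P n)) ^ 2 ^ b
        = X a ^ 2 ^ b + (∑ i ∈ I, (X i : P n)) ^ 2 ^ b := fun b _ => add_pow_char_pow _ _ 2 b
    rw [Finset.prod_congr rfl this, Finset.prod_add]
    apply Finset.sum_congr rfl
    intro B _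
    rw [Finset.prod_pow_eq_pow_sum]; rfl
  rw [h1, ← Finset.add_sum_erase _ _ (Finset.empty_mem_powerset E)]
  simp only [val, sum_empty, pow_zero, one_mul, sdiff_empty, ← add_assoc]
  rw [CharTwo.add_self_eq_zero, zero_add]

/-- `s` is obtained by distributing the binary positions in `E` onto the places in `S`,
each place receiving at least one. -/
def Dist {n : ℕ} (S : Finset (Fin n)) (E : Finset ℕ) (s : Fin n → ℕ) : Prop :=
  ∃ σ : ℕ → Fin n, (∀ b ∈ E, σ b ∈ S) ∧ (∀ j ∈ S, ∃ b ∈ E, σ b = j) ∧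
    ∀ j, s j = val (E.filter (fun b => σ b = j))

theorem Dist.card_le {n : ℕ} {S : Finset (Fin n)} {E : Finset ℕ} {s : Fin n → ℕ}
    (h : Dist S E s) : S.card ≤ E.card := by
  obtain ⟨σ, _, h2, _⟩ := h
  calc S.card ≤ (E.image σ).card := Finset.card_le_card (by
        intro j hj; obtain ⟨b, hb, rfl⟩ := h2 j hj; exact Finset.mem_image_of_mem _ hb)
    _ ≤ E.card := Finset.card_image_le

theorem Dist.insert {n : ℕ} {S : Finset (Fin n)} {E B : Finset ℕ} {s : Fin n → ℕ} {a : Fin n}
    (ha : a ∉ S) (hB : B ⊆ E) (hB0 : B.Nonempty) (h : Dist S (E \ B) s) :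
    Dist (insert a S) E (Pi.single a (val B) + s) := by
  obtain ⟨σ, h1, h2, h3⟩ := h
  refine ⟨fun b => if b ∈ B then a else σ b, ?_, ?_, ?_⟩
  · intro b hb
    by_cases hbB : b ∈ B
    · simp [hbB]
    · simp only [hbB, if_false]
      exact Finset.mem_insert_of_mem (h1 b (Finset.mem_sdiff.2 ⟨hb, hbB⟩))
  · intro j hj
    rcases Finset.mem_insert.1 hj with rfl | hj
    · obtain ⟨b, hb⟩ := hB0
      exact ⟨b, hB hb, by simp [hb]⟩
    · obtain ⟨b, hb, hbj⟩ := h2 j hj
      rw [Finset.mem_sdiff] at hb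
      exact ⟨b, hb.1, by simp [hb.2, hbj]⟩
  · intro j
    by_cases hj : j = a
    · subst hj
      have e1 : (E \ B).filter (fun b => σ b = j) = ∅ := by
        rw [Finset.filter_eq_empty_iff]
        intro b hb hbj
        exact ha (hbj ▸ h1 b hb)
      have e2 : E.filter (fun b => (if b ∈ B then j else σ b) = j) = B := by
        ext b
        simp only [Finset.mem_filter]
        constructor
        · rintro ⟨hb, hbj⟩
          by_contra hbB
          rw [if_neg hbB] at hbj
          exact ha (hbj ▸ h1 b (Finset.mem_sdiff.2 ⟨hb, hbB⟩))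
        · intro hb; exact ⟨hB hb, by simp [hb]⟩
      rw [Pi.add_apply, h3, e1, e2]; simp [val]
    · have e2 : E.filter (fun b => (if b ∈ B then a else σ b) = j)
          = (E \ B).filter (fun b => σ b = j) := by
        ext b
        simp only [Finset.mem_filter, Finset.mem_sdiff]
        by_cases hbB : b ∈ B
        · simp [hbB, Ne.symm hj]
        · simp [hbB]
      rw [Pi.add_apply, h3, e2, Pi.single_eq_of_ne hj, zero_add]

theorem q_mem {n : ℕ} [Nonempty (Fin n)] (S : Finset (Fin n)) (E : Finset ℕ) :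
    q S E ∈ Submodule.span (ZMod 2) {h | ∃ s, Dist S E s ∧ h = mono s} := by
  induction S using Finset.induction_on generalizing E with
  | empty =>
    rw [q_empty]
    split_ifs with h
    · subst h
      exact Submodule.subset_span ⟨0, ⟨fun _ => Classical.arbitrary _, by simp, by simp, by simp [val]⟩,
        mono_zero.symm⟩
    · exact Submodule.zero_mem _
  | insert a S ha ih =>
    rw [q_insert ha]
    apply Submodule.sum_mem
    intro B hB
    rw [Finset.mem_erase, Finset.mem_powerset] at hB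
    rw [← mono_single]
    apply mono_mul_mem (p := Dist S (E \ B)) _ (ih (E \ B))
    intro s hs
    exact Submodule.subset_span ⟨_, hs.insert ha hB.2 (Finset.nonempty_iff_ne_empty.2 hB.1), rfl⟩

theorem q_eq_zero {n : ℕ} [Nonempty (Fin n)] {S : Finset (Fin n)} {E : Finset ℕ}
    (h : E.card < S.card) : q S E = 0 := by
  have := q_mem S E
  have hempty : {h : P n | ∃ s, Dist S E s ∧ h = mono s} = ∅ := by
    rw [Set.eq_empty_iff_forall_notMem]
    rintro x ⟨s, hs, _⟩
    exact absurd hs.card_le (by omega)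
  rw [hempty, Submodule.span_empty] at this
  simpa using this


/-! ### Weights and the lexicographic order -/

theorem LexLT.trans {ι : Type} [LinearOrder ι] {a b c : ι → ℕ}
    (h1 : LexLT a b) (h2 : LexLT b c) : LexLT a c := by
  obtain ⟨i, hi, hi'⟩ := h1
  obtain ⟨j, hj, hj'⟩ := h2
  rcases lt_trichotomy i j with h | h | h
  · exact ⟨i, fun x hx => (hi x hx).trans (hj x (hx.trans h)), hi'.trans_eq (hj i h)⟩
  · subst h
    exact ⟨i, fun x hx => (hi x hx).trans (hj x hx), hi'.trans hj'⟩
  · exact ⟨j, fun x hx => (hi x (hx.trans h)).trans (hj x hx), (hi j h).trans_lt hj'⟩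

theorem LexLT.add_left {ι : Type} [LinearOrder ι] {a b : ι → ℕ} (h : LexLT a b) (c : ι → ℕ) :
    LexLT (c + a) (c + b) := by
  obtain ⟨i, hi, hi'⟩ := h
  exact ⟨i, fun j hj => by simp [hi j hj], by simpa using hi'⟩

theorem LexLT.add_right {ι : Type} [LinearOrder ι] {a b : ι → ℕ} (h : LexLT a b) (c : ι → ℕ) :
    LexLT (a + c) (b + c) := by
  obtain ⟨i, hi, hi'⟩ := h
  exact ⟨i, fun j hj => by simp [hi j hj], by simpa using hi'⟩

theorem testBit_add_of_no_common (b : ℕ) : ∀ a c : ℕ,
    (∀ b' < b, ¬ (a.testBit b' = true ∧ c.testBit b' = true)) →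
    (a + c).testBit b = (a.testBit b ^^ c.testBit b) := by
  induction b with
  | zero =>
    intro a c _
    simp only [Nat.testBit_zero]
    rcases Nat.mod_two_eq_zero_or_one a with h | h <;>
      rcases Nat.mod_two_eq_zero_or_one c with h' | h' <;> simp [Nat.add_mod, h, h']
  | succ b ih =>
    intro a c h
    have h0 := h 0 (by omega)
    simp only [Nat.testBit_zero, decide_eq_true_eq] at h0
    have hdiv : (a + c) / 2 = a / 2 + c / 2 := by omega
    simp only [Nat.testBit_add_one]
    rw [hdiv]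
    apply ih
    intro b' hb'
    have := h (b' + 1) (by omega)
    simpa only [Nat.testBit_add_one] using this

theorem wt_add_eq {d : ℕ} {e f : Fin d → ℕ}
    (h : ∀ b j, ¬ ((e j).testBit b = true ∧ (f j).testBit b = true)) :
    wt (e + f) = wt e + wt f := by
  funext b
  simp only [wt, Pi.add_apply]
  rw [← Finset.sum_add_distrib]
  apply Finset.sum_congr rfl
  intro j _
  rw [testBit_add_of_no_common b _ _ (fun b' _ => h b' j)]
  have := h b j
  cases h1 : (e j).testBit b <;> cases h2 : (f j).testBit b <;> simp_all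

theorem wt_add_lt {d : ℕ} {e f : Fin d → ℕ}
    (h : ∃ b, ∃ j, (e j).testBit b = true ∧ (f j).testBit b = true) :
    LexLT (wt (e + f)) (wt e + wt f) := by
  classical
  have hmin : ∀ b' < Nat.find h, ∀ j, ¬ ((e j).testBit b' = true ∧ (f j).testBit b' = true) := by
    intro b' hb' j hj
    exact Nat.find_min h hb' ⟨j, hj⟩
  refine ⟨Nat.find h, ?_, ?_⟩
  · intro b hb
    simp only [wt, Pi.add_apply]
    rw [← Finset.sum_add_distrib]
    apply Finset.sum_congr rfl
    intro j _
    rw [testBit_add_of_no_common b _ _ (fun b' hb' => hmin b' (hb'.trans hb) j)]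
    have := hmin b hb j
    cases h1 : (e j).testBit b <;> cases h2 : (f j).testBit b <;> simp_all
  · simp only [wt, Pi.add_apply]
    rw [← Finset.sum_add_distrib]
    obtain ⟨j, hj1, hj2⟩ := Nat.find_spec h
    apply Finset.sum_lt_sum
    · intro i _
      rw [testBit_add_of_no_common _ _ _ (fun b' hb' => hmin b' hb' i)]
      cases h1 : (e i).testBit (Nat.find h) <;> cases h2 : (f i).testBit (Nat.find h) <;> simp
    · refine ⟨j, Finset.mem_univ _, ?_⟩
      rw [testBit_add_of_no_common _ _ _ (fun b' hb' => hmin b' hb' j), hj1, hj2]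
      simp

theorem Dist.wt {n : ℕ} {S : Finset (Fin n)} {E : Finset ℕ} {s : Fin n → ℕ} (h : Dist S E s)
    (b : ℕ) : wt s b = if b ∈ E then 1 else 0 := by
  obtain ⟨σ, _, _, h3⟩ := h
  unfold SumMaps.wt
  have : ∀ j, ((s j).testBit b).toNat = if σ b = j then (if b ∈ E then 1 else 0) else 0 := by
    intro j
    rw [h3, testBit_val]
    by_cases hb : b ∈ E <;> by_cases hj : σ b = j <;> simp [hb, hj]
  simp_rw [this]
  simp

theorem Dist.sum {n : ℕ} {S : Finset (Fin n)} {E : Finset ℕ} {s : Fin n → ℕ} (h : Dist S E s) :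
    ∑ j, s j = val E := by
  obtain ⟨σ, _, _, h3⟩ := h
  simp_rw [h3]
  exact Finset.sum_fiberwise E σ (fun b => 2 ^ b)

theorem Dist.off {n : ℕ} {S : Finset (Fin n)} {E : Finset ℕ} {s : Fin n → ℕ} (h : Dist S E s)
    {j : Fin n} (hj : j ∉ S) : s j = 0 := by
  obtain ⟨σ, h1, _, h3⟩ := h
  rw [h3, Finset.filter_eq_empty_iff.2]
  · simp [val]
  · intro b hb hbj; exact hj (hbj ▸ h1 b hb)

theorem Dist.on {n : ℕ} {S : Finset (Fin n)} {E : Finset ℕ} {s : Fin n → ℕ} (h : Dist S E s)
    {j : Fin n} (hj : j ∈ S) : ∃ b ∈ E, (s j).testBit b = true := by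
  obtain ⟨σ, _, h2, h3⟩ := h
  obtain ⟨b, hb, hbj⟩ := h2 j hj
  exact ⟨b, hb, by rw [h3, testBit_val]; simp [hb, hbj]⟩

theorem wt_succAbove {n : ℕ} (y : Fin (n + 1) → ℕ) (p : Fin (n + 1)) (b : ℕ) :
    wt y b = ((y p).testBit b).toNat + wt (p.removeNth y) b := by
  unfold wt
  rw [Fin.sum_univ_succAbove _ p]; rfl

section Terms

variable {n : ℕ} {y : Fin (n + 1) → ℕ} {p : Fin (n + 1)} {S : Finset (Fin n)} {s : Fin n → ℕ}

theorem term_deg (h : Dist S (bits (y p)) s) : ∑ j, (p.removeNth y + s) j = ∑ i, y i := by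
  simp only [Pi.add_apply]
  rw [Finset.sum_add_distrib, h.sum, val_bits, Fin.sum_univ_succAbove _ p, add_comm]; rfl

theorem wt_split (h : Dist S (bits (y p)) s) : wt (p.removeNth y) + wt s = wt y := by
  funext b
  rw [wt_succAbove y p b, Pi.add_apply, h.wt, add_comm]
  congr 1
  by_cases hb : (y p).testBit b = true
  · simp [mem_bits, hb]
  · simp [mem_bits, hb]

theorem term_wt_le (h : Dist S (bits (y p)) s) :
    LexLT (wt (p.removeNth y + s)) (wt y) ∨ wt (p.removeNth y + s) = wt y := by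
  rw [← wt_split h]
  by_cases hc : ∃ b, ∃ j, (p.removeNth y j).testBit b = true ∧ (s j).testBit b = true
  · exact Or.inl (wt_add_lt hc)
  · right
    apply wt_add_eq
    intro b j hbj; exact hc ⟨b, j, hbj⟩

theorem term_wt_lt (h : Dist S (bits (y p)) s)
    (hc : ∃ b, ∃ j, (p.removeNth y j).testBit b = true ∧ (s j).testBit b = true) :
    LexLT (wt (p.removeNth y + s)) (wt y) := by
  rw [← wt_split h]; exact wt_add_lt hc

end Terms

/-- combinations of monomials smaller than the monomial with exponents `t` -/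
noncomputable def Low {n : ℕ} (t : Fin n → ℕ) : Submodule (ZMod 2) (P n) :=
  Submodule.span (ZMod 2) {h | ∃ z, Smaller z t ∧ h = mono z}

/-! ### The operators `T p S` -/

noncomputable def T {n : ℕ} (p : Fin (n + 1)) (S : Finset (Fin n)) : P (n + 1) →ₗ[ZMod 2] P n :=
  ∑ I ∈ S.powerset,
    (subst (Fin.insertNth (α := fun _ => Finset (Fin n)) p I (fun j => {j}))).toLinearMap

theorem T_hits {n : ℕ} (p : Fin (n + 1)) (S : Finset (Fin n)) {f : P (n + 1)}
    (hf : f ∈ hits (n + 1)) : T p S f ∈ hits n := by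
  unfold T
  rw [LinearMap.sum_apply]
  exact Submodule.sum_mem _ (fun I _ => subst_hits _ hf)

theorem T_mono {n : ℕ} (p : Fin (n + 1)) (S : Finset (Fin n)) (y : Fin (n + 1) → ℕ) :
    T p S (mono y) = mono (p.removeNth y) * q S (bits (y p)) := by
  unfold T q
  rw [LinearMap.sum_apply, Finset.mul_sum]
  apply Finset.sum_congr rfl
  intro I _
  have h1 : ∏ b ∈ bits (y p), (∑ i ∈ I, (X i : P n)) ^ 2 ^ b = (∑ i ∈ I, (X i : P n)) ^ y p := by
    rw [Finset.prod_pow_eq_pow_sum]
    congr 1
    exact val_bits (y p)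
  rw [h1]
  simp only [AlgHom.toLinearMap_apply, mono, map_prod, map_pow, subst, aeval_X]
  rw [Fin.prod_univ_succAbove _ p, mul_comm]
  simp [Fin.removeNth]

theorem T_mem_of {n : ℕ} [Nonempty (Fin n)] {N : Submodule (ZMod 2) (P n)} {p : Fin (n + 1)}
    {S : Finset (Fin n)} {y : Fin (n + 1) → ℕ}
    (h : ∀ s, Dist S (bits (y p)) s → mono (p.removeNth y + s) ∈ N) : T p S (mono y) ∈ N := by
  rw [T_mono]
  exact mono_mul_mem _ (q_mem _ _) h


/-! ### The leading monomial of `q S (range r)` -/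

theorem val_lt_of {F : Finset ℕ} {N : ℕ} (h1 : N ≤ F.card) (h2 : F ≠ range N) :
    2 ^ N - 1 < val F := by
  have hex : ∃ b ∈ F, N ≤ b := by
    by_contra hc
    push Not at hc
    have hsub : F ⊆ range N := fun b hb => mem_range.2 (hc b hb)
    exact h2 (Finset.eq_of_subset_of_card_le hsub (by simpa using h1))
  obtain ⟨b, hb, hbN⟩ := hex
  have h3 : 2 ^ b ≤ val F := Finset.single_le_sum (f := fun b => 2 ^ b) (by simp) hb
  have h4 : 2 ^ N ≤ 2 ^ b := Nat.pow_le_pow_right (by norm_num) hbN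
  have h5 : 0 < 2 ^ N := by positivity
  omega

/-- `2 ^ (number of elements of `S` above `j`)` for `j` in `S`, and `0` elsewhere -/
def top {n : ℕ} (S : Finset (Fin n)) (j : Fin n) : ℕ :=
  if j ∈ S then 2 ^ (S.filter (fun i => j < i)).card else 0

def Lead {n : ℕ} (S : Finset (Fin n)) (r : ℕ) (s : Fin n → ℕ) : Prop :=
  q S (range r) - mono s ∈
    Submodule.span (ZMod 2) {h : P n | ∃ s', (Dist S (range r) s' ∧ LexLT s' s) ∧ h = mono s'}

theorem lead_step {n : ℕ} [Nonempty (Fin n)] {S : Finset (Fin n)} {a : Fin n}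
    (ha : ∀ x ∈ S, a < x) {r : ℕ} (hr : S.card + 1 ≤ r) {s : Fin n → ℕ}
    (hs : Dist S (range S.card) s) (hS : Lead S S.card s) :
    Dist (insert a S) (range r) (Pi.single a (2 ^ r - 2 ^ S.card) + s) ∧
    Lead (insert a S) r (Pi.single a (2 ^ r - 2 ^ S.card) + s) := by
  have haS : a ∉ S := fun h => lt_irrefl a (ha a h)
  set N := S.card with hN
  set B0 := range r \ range N with hB0
  have hsubN : range N ⊆ range r := Finset.range_subset_range.2 (by omega)
  have hvB0 : val B0 = 2 ^ r - 2 ^ N := by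
    have := val_sdiff_add hsubN
    rw [← hB0, val_range, val_range] at this
    have h1 : 0 < 2 ^ N := by positivity
    have h2 : 0 < 2 ^ r := by positivity
    have h3 : 2 ^ N ≤ 2 ^ r := Nat.pow_le_pow_right (by norm_num) (by omega)
    omega
  have hB0sub : B0 ⊆ range r := Finset.sdiff_subset
  have hB0ne : B0.Nonempty := ⟨N, by simp [hB0]; omega⟩
  have hcomp : range r \ B0 = range N := by
    rw [hB0]; exact Finset.sdiff_sdiff_eq_self hsubN
  constructor
  · rw [← hvB0]
    apply Dist.insert haS hB0sub hB0ne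
    rw [hcomp]; exact hs
  · unfold Lead
    rw [q_insert haS]
    have hmem : B0 ∈ (range r).powerset.erase ∅ :=
      Finset.mem_erase.2 ⟨hB0ne.ne_empty, Finset.mem_powerset.2 hB0sub⟩
    rw [← Finset.add_sum_erase _ _ hmem, hcomp, mono_add, hvB0, mono_single, add_sub_right_comm,
      ← mul_sub]
    apply Submodule.add_mem
    · rw [← mono_single]
      apply mono_mul_mem _ hS
      rintro s' ⟨hs', hlt⟩
      refine Submodule.subset_span ⟨_, ⟨?_, hlt.add_left _⟩, rfl⟩
      rw [← hvB0]
      apply Dist.insert haS hB0sub hB0ne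
      rw [hcomp]; exact hs'
    · apply Submodule.sum_mem
      intro B hB
      rw [Finset.mem_erase, Finset.mem_erase, Finset.mem_powerset] at hB
      obtain ⟨hne, hne0, hBsub⟩ := hB
      by_cases hcard : N ≤ (range r \ B).card
      · rw [← mono_single]
        apply mono_mul_mem (p := Dist S (range r \ B)) _ (q_mem _ _)
        intro s' hs'
        have hlt : val B < 2 ^ r - 2 ^ N := by
          have h1 := val_sdiff_add hBsub
          have h2 : range r \ B ≠ range N := by
            intro h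
            apply hne
            rw [hB0, ← h]; exact (Finset.sdiff_sdiff_eq_self hBsub).symm
          have h3 := val_lt_of hcard h2
          rw [val_range] at h1
          have h4 : 0 < 2 ^ N := by positivity
          have h5 : 0 < 2 ^ r := by positivity
          have h6 : 2 ^ N ≤ 2 ^ r := Nat.pow_le_pow_right (by norm_num) (by omega)
          omega
        refine Submodule.subset_span ⟨_, ⟨hs'.insert haS hBsub
          (Finset.nonempty_iff_ne_empty.2 hne0), a, ?_, ?_⟩, rfl⟩
        · intro j hj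
          have hjS : j ∉ S := fun h => lt_asymm hj (ha j h)
          simp [Pi.single_eq_of_ne hj.ne, hs'.off hjS, hs.off hjS]
        · simpa [hs'.off haS, hs.off haS] using hlt
      · rw [q_eq_zero (by omega), mul_zero]; exact Submodule.zero_mem _

theorem lead_top {n : ℕ} [Nonempty (Fin n)] (S : Finset (Fin n)) :
    Dist S (range S.card) (top S) ∧ Lead S S.card (top S) := by
  induction S using Finset.induction_on_min with
  | empty =>
    have h0 : top (∅ : Finset (Fin n)) = 0 := by funext j; simp [top]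
    constructor
    · rw [h0]
      exact ⟨fun _ => Classical.arbitrary _, by simp, by simp, by simp [val]⟩
    · unfold Lead
      rw [h0, q_empty, mono_zero]; simp
  | insert a S ha ih =>
    have haS : a ∉ S := fun h => lt_irrefl a (ha a h)
    have hcard : (insert a S).card = S.card + 1 := Finset.card_insert_of_notMem haS
    have htop : top (insert a S) = Pi.single a (2 ^ (S.card + 1) - 2 ^ S.card) + top S := by
      funext j
      by_cases hj : j = a
      · subst hj
        have h1 : (insert j S).filter (fun i => j < i) = S := by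
          ext i
          simp only [Finset.mem_filter, Finset.mem_insert]
          constructor
          · rintro ⟨h | h, h'⟩
            · subst h; exact absurd h' (lt_irrefl _)
            · exact h
          · intro h; exact ⟨Or.inr h, ha i h⟩
        simp only [top, h1, Finset.mem_insert_self, if_true, Pi.add_apply, Pi.single_eq_same, haS,
          if_false]
        rw [pow_succ]; omega
      · have h1 : (insert a S).filter (fun i => j < i) = S.filter (fun i => j < i) ∨ j ∉ S := by
          by_cases hjS : j ∈ S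
          · left
            ext i
            simp only [Finset.mem_filter, Finset.mem_insert]
            constructor
            · rintro ⟨h | h, h'⟩
              · subst h; exact absurd (h'.trans (ha j hjS)) (lt_irrefl _)
              · exact ⟨h, h'⟩
            · rintro ⟨h, h'⟩; exact ⟨Or.inr h, h'⟩
          · exact Or.inr hjS
        rcases h1 with h1 | h1
        · simp only [top, h1, Finset.mem_insert, hj, false_or, Pi.add_apply,
            Pi.single_eq_of_ne hj, zero_add]
        · simp [top, hj, h1]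
    rw [hcard, htop]
    exact lead_step ha le_rfl ih.1 ih.2


/-! ### The core argument -/

theorem sub_facts {a c : ℕ} (h : ∀ b, c.testBit b = true → a.testBit b = true) :
    c ≤ a ∧ ∀ b, ¬ ((a - c).testBit b = true ∧ c.testBit b = true) := by
  have hsub : bits c ⊆ bits a := fun b hb => mem_bits.2 (h b (mem_bits.1 hb))
  have h1 := val_sdiff_add hsub
  rw [val_bits, val_bits] at h1
  have h2 : a - c = val (bits a \ bits c) := by omega
  refine ⟨by omega, fun b hb => ?_⟩
  rw [h2, testBit_val] at hb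
  simp only [Finset.mem_sdiff, mem_bits, decide_eq_true_eq] at hb
  exact hb.1.2 hb.2

section Smaller

variable {n d : ℕ} {z t : Fin n → ℕ} {y : Fin d → ℕ}

theorem smaller_of (h1 : ∑ i, z i = ∑ i, t i) (hzy : LexLT (wt z) (wt y) ∨ wt z = wt y)
    (hyt : LexLT (wt y) (wt t) ∨ wt y = wt t) (hlex : LexLT z t) : Smaller z t := by
  refine ⟨h1, ?_⟩
  rcases hzy with h | h <;> rcases hyt with h' | h'
  · exact Or.inl (h.trans h')
  · exact Or.inl (h' ▸ h)
  · exact Or.inl (h ▸ h')
  · exact Or.inr ⟨h.trans h', hlex⟩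

theorem smaller_of_wt (h1 : ∑ i, z i = ∑ i, t i) (hzy : LexLT (wt z) (wt y))
    (hyt : LexLT (wt y) (wt t) ∨ wt y = wt t) : Smaller z t := by
  refine ⟨h1, Or.inl ?_⟩
  rcases hyt with h' | h'
  · exact hzy.trans h'
  · exact h' ▸ hzy

end Smaller

/-- the places onto which the digits of the place `k + m` are distributed -/
def SS {n : ℕ} (k v : ℕ) (Sv : Finset (Fin n)) (m : ℕ) : Finset (Fin n) :=
  (univ.filter (fun j : Fin n => k + m ≤ (j : ℕ) ∧ (j : ℕ) < k + v)) ∪ Sv

theorem mem_SS {n : ℕ} {k v : ℕ} {Sv : Finset (Fin n)} {m : ℕ} {j : Fin n} :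
    j ∈ SS k v Sv m ↔ (k + m ≤ (j : ℕ) ∧ (j : ℕ) < k + v) ∨ j ∈ Sv := by
  simp [SS]

structure Data {n : ℕ} (t ded : Fin n → ℕ) (k v r : ℕ) (Sv : Finset (Fin n)) : Prop where
  hkv : k + v < n
  hvr : v < r
  hSv : ∀ j ∈ Sv, k + v ≤ (j : ℕ)
  hcard : r ≤ v + Sv.card
  hfull : ∀ j : Fin n, k ≤ (j : ℕ) → (j : ℕ) < k + v → t j = 2 ^ r - 1
  hdist : Dist Sv (range r) ded
  hlead : Lead Sv r ded
  hbits : ∀ j b, (ded j).testBit b = true → (t j).testBit b = true

def phi0 {n : ℕ} (t ded : Fin n → ℕ) (k : Fin (n + 1)) (r : ℕ) : Fin (n + 1) → ℕ :=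
  Fin.insertNth (α := fun _ => ℕ) k (2 ^ r - 1) (t - ded)

section Core

variable {n : ℕ} {t ded : Fin n → ℕ} {k v r : ℕ} {Sv : Finset (Fin n)}

theorem succAbove_lt {m : ℕ} (h : m < n + 1) {j : Fin n} (hj : (j : ℕ) < m) :
    (⟨m, h⟩ : Fin (n + 1)).succAbove j = j.castSucc :=
  Fin.succAbove_of_castSucc_lt _ _ (by simpa [Fin.lt_def] using hj)

theorem succAbove_ge {m : ℕ} (h : m < n + 1) {j : Fin n} (hj : m ≤ (j : ℕ)) :
    (⟨m, h⟩ : Fin (n + 1)).succAbove j = j.succ :=
  Fin.succAbove_of_le_castSucc _ _ (by simpa [Fin.le_def] using hj)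

theorem Data.sub_add (D : Data t ded k v r Sv) : (t - ded) + ded = t := by
  funext j
  have := (sub_facts (D.hbits j)).1
  simp only [Pi.add_apply, Pi.sub_apply]; omega

theorem Data.phi_lt (D : Data t ded k v r Sv) (hk : k < n + 1) {j : Fin n}
    (hj : (j : ℕ) < k + v) : phi0 t ded ⟨k, hk⟩ r j.castSucc = t j := by
  have hoff : ∀ i : Fin n, (i : ℕ) < k + v → ded i = 0 := fun i hi =>
    D.hdist.off (fun hmem => absurd (D.hSv i hmem) (by omega))
  rcases lt_trichotomy (j : ℕ) k with h | h | h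
  · rw [← succAbove_lt hk h, phi0, Fin.insertNth_apply_succAbove]
    simp [hoff j hj]
  · have : j.castSucc = (⟨k, hk⟩ : Fin (n + 1)) := by ext; simpa using h
    rw [this, phi0, Fin.insertNth_apply_same, D.hfull j (by omega) hj]
  · have hj' : (j : ℕ) - 1 < n := by omega
    have : j.castSucc = (⟨(j : ℕ) - 1, hj'⟩ : Fin n).succ := by ext; simp <;> omega
    rw [this, ← succAbove_ge hk (j := ⟨(j : ℕ) - 1, hj'⟩) (by simp <;> omega), phi0,
      Fin.insertNth_apply_succAbove]
    simp only [Pi.sub_apply]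
    rw [hoff _ (by simp <;> omega), D.hfull _ (by simp <;> omega) (by simp <;> omega),
      D.hfull j (by omega) hj]; simp

theorem Data.phi_full (D : Data t ded k v r Sv) (hk : k < n + 1) {i : Fin (n + 1)}
    (h1 : k ≤ (i : ℕ)) (h2 : (i : ℕ) ≤ k + v) : phi0 t ded ⟨k, hk⟩ r i = 2 ^ r - 1 := by
  have hoff : ∀ i : Fin n, (i : ℕ) < k + v → ded i = 0 := fun i hi =>
    D.hdist.off (fun hmem => absurd (D.hSv i hmem) (by omega))
  rcases h1.eq_or_lt with h | h
  · have : i = (⟨k, hk⟩ : Fin (n + 1)) := by ext; exact h.symm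
    rw [this, phi0, Fin.insertNth_apply_same]
  · have hn := D.hkv
    have hj' : (i : ℕ) - 1 < n := by omega
    have : i = (⟨(i : ℕ) - 1, hj'⟩ : Fin n).succ := by ext; simp <;> omega
    rw [this, ← succAbove_ge hk (j := ⟨(i : ℕ) - 1, hj'⟩) (by simp <;> omega), phi0,
      Fin.insertNth_apply_succAbove]
    simp only [Pi.sub_apply]
    rw [hoff _ (by simp <;> omega), D.hfull _ (by simp <;> omega) (by simp <;> omega)]; simp

theorem Data.phi_remove (D : Data t ded k v r Sv) (hk : k < n + 1) (hkv : k + v < n + 1) :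
    (⟨k + v, hkv⟩ : Fin (n + 1)).removeNth (phi0 t ded ⟨k, hk⟩ r) = t - ded := by
  funext j
  simp only [Fin.removeNth]
  by_cases h : (j : ℕ) < k + v
  · rw [succAbove_lt hkv h, D.phi_lt hk h]
    simp [D.hdist.off (fun hmem => absurd (D.hSv j hmem) (by omega))]
  · rw [succAbove_ge hkv (by omega), ← succAbove_ge hk (by omega), phi0,
      Fin.insertNth_apply_succAbove]

theorem Data.phi_wt (D : Data t ded k v r Sv) (hk : k < n + 1) :
    wt (phi0 t ded ⟨k, hk⟩ r) = wt t := by
  funext b
  rw [wt_succAbove _ ⟨k, hk⟩]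
  have h1 : (⟨k, hk⟩ : Fin (n + 1)).removeNth (phi0 t ded ⟨k, hk⟩ r) = t - ded :=
    Fin.removeNth_insertNth _ _ _
  have h2 : phi0 t ded ⟨k, hk⟩ r ⟨k, hk⟩ = 2 ^ r - 1 := by simp [phi0]
  have h3 : wt t = wt (t - ded) + wt ded := by
    conv_lhs => rw [← D.sub_add]
    apply wt_add_eq
    intro b j
    exact (sub_facts (D.hbits j)).2 b
  rw [h1, h2, h3, Pi.add_apply, D.hdist.wt, Nat.testBit_two_pow_sub_one, add_comm]
  simp only [Finset.mem_range]
  congr 1
  by_cases hb : b < r <;> simp [hb]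

theorem Data.phi_deg (D : Data t ded k v r Sv) (hk : k < n + 1) :
    ∑ i, phi0 t ded ⟨k, hk⟩ r i = ∑ j, t j := by
  rw [Fin.sum_univ_succAbove _ ⟨k, hk⟩]
  have h3 : ∑ j, t j = ∑ j, (t - ded) j + ∑ j, ded j := by
    rw [← Finset.sum_add_distrib]
    exact Finset.sum_congr rfl (fun j _ => (congrFun D.sub_add j).symm)
  rw [h3, D.hdist.sum, val_range, add_comm]
  simp [phi0]

/-- the sum of the operators attached to the places `k, ..., k + v` -/
noncomputable def TT (n k v : ℕ) (Sv : Finset (Fin n)) (hkv : k + v < n) : P (n + 1) →ₗ[ZMod 2] P n :=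
  ∑ m : Fin (v + 1), T ⟨k + m, by omega⟩ (SS k v Sv m)

theorem lemW {y : Fin (n + 1) → ℕ} [Nonempty (Fin n)] (hdeg : ∑ i, y i = ∑ j, t j)
    (hw : LexLT (wt y) (wt t)) (p : Fin (n + 1)) (S : Finset (Fin n)) :
    T p S (mono y) ∈ Low t := by
  apply T_mem_of
  intro s hs
  refine Submodule.subset_span ⟨_, ⟨(term_deg hs).trans hdeg, Or.inl ?_⟩, rfl⟩
  rcases term_wt_le hs with h | h
  · exact h.trans hw
  · rw [h]; exact hw

theorem lemA (D : Data t ded k v r Sv) [Nonempty (Fin n)] {y : Fin (n + 1) → ℕ}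
    (hdeg : ∑ i, y i = ∑ j, t j) (hw : LexLT (wt y) (wt t) ∨ wt y = wt t) {m : ℕ} (hm : m ≤ v)
    (hkm : k + m < n + 1) {i0 : Fin n} (hi : (i0 : ℕ) < k + m)
    (heq : ∀ j : Fin n, j < i0 → y j.castSucc = t j) (hlt : y i0.castSucc < t i0) :
    T ⟨k + m, hkm⟩ (SS k v Sv m) (mono y) ∈ Low t := by
  apply T_mem_of
  intro s hs
  refine Submodule.subset_span ⟨_, smaller_of ((term_deg hs).trans hdeg) (term_wt_le hs) hw
    ⟨i0, ?_, ?_⟩, rfl⟩
  · intro j hj
    have hj' : (j : ℕ) < k + m := lt_trans hj hi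
    have : s j = 0 := hs.off (by
      rw [mem_SS]; rintro (h | h)
      · omega
      · have := D.hSv j h; omega)
    simp only [Pi.add_apply, Fin.removeNth, this, add_zero, succAbove_lt hkm hj']
    exact heq j hj
  · have : s i0 = 0 := hs.off (by
      rw [mem_SS]; rintro (h | h)
      · omega
      · have := D.hSv i0 h; omega)
    simp only [Pi.add_apply, Fin.removeNth, this, add_zero, succAbove_lt hkm hi]
    exact hlt

theorem lemB (D : Data t ded k v r Sv) [Nonempty (Fin n)] {y : Fin (n + 1) → ℕ}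
    (hdeg : ∑ i, y i = ∑ j, t j) (hw : LexLT (wt y) (wt t) ∨ wt y = wt t) {m : ℕ} (hm : m < v)
    (hkm : k + m < n + 1) (hkm' : k + m + 1 < n + 1) (h1 : y ⟨k + m, hkm⟩ = 2 ^ r - 1)
    (h2 : y ⟨k + m + 1, hkm'⟩ = 2 ^ r - 1) :
    T ⟨k + m, hkm⟩ (SS k v Sv m) (mono y) ∈ Low t := by
  apply T_mem_of
  intro s hs
  refine Submodule.subset_span ⟨_, smaller_of_wt ((term_deg hs).trans hdeg)
    (term_wt_lt hs ?_) hw, rfl⟩
  have hj : (⟨k + m, by omega⟩ : Fin n) ∈ SS k v Sv m := mem_SS.2 (Or.inl ⟨le_rfl, by simp <;> omega⟩)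
  obtain ⟨b, hb, hb'⟩ := hs.on hj
  rw [h1, bits_full] at hb
  refine ⟨b, _, ?_, hb'⟩
  simp only [Fin.removeNth]
  rw [succAbove_ge hkm (by simp)]
  have : (⟨k + m, by omega⟩ : Fin n).succ = ⟨k + m + 1, hkm'⟩ := by ext; simp
  rw [this, h2, Nat.testBit_two_pow_sub_one]
  simpa using hb

theorem lem0 (D : Data t ded k v r Sv) [Nonempty (Fin n)] {y : Fin (n + 1) → ℕ}
    (hk : k + 0 < n + 1) (h1 : y ⟨k + 0, hk⟩ < 2 ^ r - 1) :
    T ⟨k + 0, hk⟩ (SS k v Sv 0) (mono y) = 0 := by
  rw [T_mono, q_eq_zero, mul_zero]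
  refine (card_bits_lt h1).trans_le ?_
  have hdisj : Disjoint (univ.filter (fun j : Fin n => k + 0 ≤ (j : ℕ) ∧ (j : ℕ) < k + v)) Sv := by
    rw [Finset.disjoint_left]
    intro j hj hj'
    simp only [Finset.mem_filter, Finset.mem_univ, true_and] at hj
    have := D.hSv j hj'; omega
  unfold SS
  rw [Finset.card_union_of_disjoint hdisj]
  have : (univ.filter (fun j : Fin n => k + 0 ≤ (j : ℕ) ∧ (j : ℕ) < k + v)).card = v := by
    rw [← Finset.card_image_of_injective _ Fin.val_injective]
    have : (univ.filter (fun j : Fin n => k + 0 ≤ (j : ℕ) ∧ (j : ℕ) < k + v)).image Fin.val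
        = Finset.Ico k (k + v) := by
      ext x
      simp only [Finset.mem_image, Finset.mem_filter, Finset.mem_univ, true_and, Finset.mem_Ico]
      constructor
      · rintro ⟨j, hj, rfl⟩; omega
      · intro hx
        have := D.hkv
        exact ⟨⟨x, by omega⟩, by simp <;> omega, rfl⟩
    rw [this, Nat.card_Ico]; omega
  rw [this]; exact D.hcard

theorem lemC (D : Data t ded k v r Sv) [Nonempty (Fin n)] {y : Fin (n + 1) → ℕ}
    (hdeg : ∑ i, y i = ∑ j, t j) (hw : LexLT (wt y) (wt t) ∨ wt y = wt t) {m : ℕ} (hm : m < v)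
    (hkm : k + m < n + 1) (hkm' : k + (m + 1) < n + 1) (h1 : y ⟨k + m, hkm⟩ = 2 ^ r - 1)
    (h2 : y ⟨k + (m + 1), hkm'⟩ < 2 ^ r - 1)
    (heq : ∀ j : Fin n, (j : ℕ) < k + m → y j.castSucc = t j) :
    T ⟨k + m, hkm⟩ (SS k v Sv m) (mono y) + T ⟨k + (m + 1), hkm'⟩ (SS k v Sv (m + 1)) (mono y)
      ∈ Low t := by
  have hkv := D.hkv
  set a : Fin n := ⟨k + m, by omega⟩ with ha
  set C := y ⟨k + (m + 1), hkm'⟩ with hC
  have haS : a ∉ SS k v Sv (m + 1) := by
    rw [mem_SS]; rintro (h | h)
    · simp [ha] at h <;> omega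
    · have := D.hSv a h; simp [ha] at this; omega
  have hSS : SS k v Sv m = insert a (SS k v Sv (m + 1)) := by
    ext j
    rw [Finset.mem_insert, mem_SS, mem_SS, Fin.ext_iff]
    simp only [ha]
    constructor
    · rintro (h | h)
      · by_cases hj : (j : ℕ) = k + m
        · exact Or.inl hj
        · exact Or.inr (Or.inl ⟨by omega, h.2⟩)
      · exact Or.inr (Or.inr h)
    · rintro (h | h | h)
      · exact Or.inl ⟨by omega, by omega⟩
      · exact Or.inl ⟨by omega, h.2⟩
      · exact Or.inr h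
  have hbC : bits C ⊆ range r := by
    intro b hb
    rw [mem_bits] at hb
    rw [mem_range]
    by_contra hc
    have h3 := Nat.ge_two_pow_of_testBit hb
    have h4 : 2 ^ r ≤ 2 ^ b := Nat.pow_le_pow_right (by norm_num) (by omega)
    omega
  set B0 := range r \ bits C with hB0
  have hB0sub : B0 ⊆ range r := Finset.sdiff_subset
  have hvB0 : val B0 + C = 2 ^ r - 1 := by
    have := val_sdiff_add hbC
    rwa [← hB0, val_bits, val_range] at this
  have hB0ne : B0 ≠ ∅ := by
    intro h
    rw [h] at hvB0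
    simp [val] at hvB0
    omega
  have hcomp : range r \ B0 = bits C := Finset.sdiff_sdiff_eq_self hbC
  have hw' : (⟨k + (m + 1), hkm'⟩ : Fin (n + 1)).removeNth y
      = (⟨k + m, hkm⟩ : Fin (n + 1)).removeNth y + Pi.single a (val B0) := by
    funext j
    simp only [Fin.removeNth, Pi.add_apply]
    rcases lt_trichotomy (j : ℕ) (k + m) with h | h | h
    · have hne : j ≠ a := by intro hj; rw [hj] at h; simp [ha] at h
      rw [succAbove_lt hkm' (by omega), succAbove_lt hkm h, Pi.single_eq_of_ne hne, add_zero]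
    · have hj : j = a := Fin.ext h
      subst hj
      rw [succAbove_lt hkm' (by omega), succAbove_ge hkm (by omega), Pi.single_eq_same]
      have e1 : a.castSucc = (⟨k + m, hkm⟩ : Fin (n + 1)) := by ext; simp [ha]
      have e2 : a.succ = (⟨k + (m + 1), hkm'⟩ : Fin (n + 1)) := by ext; simp [ha]; omega
      rw [e1, e2, h1, ← hC]; omega
    · have hne : j ≠ a := by intro hj; rw [hj] at h; simp [ha] at h
      rw [succAbove_ge hkm' (by omega), succAbove_ge hkm (by omega), Pi.single_eq_of_ne hne,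
        add_zero]
  rw [T_mono, T_mono, h1, bits_full, ← hC, hSS, q_insert haS, hw', mono_add, mono_single]
  have hmem : B0 ∈ (range r).powerset.erase ∅ :=
    Finset.mem_erase.2 ⟨hB0ne, Finset.mem_powerset.2 hB0sub⟩
  rw [← Finset.add_sum_erase _ _ hmem, hcomp, mul_add, ← mul_assoc, add_right_comm,
    CharTwo.add_self_eq_zero, zero_add, Finset.mul_sum]
  apply Submodule.sum_mem
  intro B hB
  rw [Finset.mem_erase, Finset.mem_erase, Finset.mem_powerset] at hB
  obtain ⟨hne, hne0, hBsub⟩ := hB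
  rw [← mono_single, ← mul_assoc, ← mono_add]
  apply mono_mul_mem (p := Dist (SS k v Sv (m + 1)) (range r \ B)) _ (q_mem _ _)
  intro s hs
  rw [add_assoc]
  obtain ⟨s', hss'⟩ : ∃ s' : Fin n → ℕ, s' = Pi.single a (val B) + s := ⟨_, rfl⟩
  rw [← hss']
  have hs' : Dist (SS k v Sv m) (bits (y ⟨k + m, hkm⟩)) s' := by
    rw [hSS, h1, bits_full, hss']
    exact hs.insert haS hBsub (Finset.nonempty_iff_ne_empty.2 hne0)
  have hwa : (⟨k + m, hkm⟩ : Fin (n + 1)).removeNth y a = C := by
    simp only [Fin.removeNth]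
    rw [succAbove_ge hkm (by simp [ha])]
    have e2 : a.succ = (⟨k + (m + 1), hkm'⟩ : Fin (n + 1)) := by ext; simp [ha]; omega
    rw [e2]
  have hsa : s' a = val B := by
    rw [hss']; simp [hs.off haS]
  by_cases hc : ∃ b ∈ B, b ∈ bits C
  · obtain ⟨b, hb, hb'⟩ := hc
    refine Submodule.subset_span ⟨_, smaller_of_wt ((term_deg hs').trans hdeg)
      (term_wt_lt hs' ⟨b, a, ?_, ?_⟩) hw, rfl⟩
    · rw [hwa]; exact mem_bits.1 hb'
    · rw [hsa, testBit_val]; simpa using hb
  · have hBB : B ⊆ B0 := by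
      intro b hb
      rw [hB0, Finset.mem_sdiff]
      exact ⟨hBsub hb, fun h => hc ⟨b, hb, h⟩⟩
    have hlt : val B < val B0 := by
      obtain ⟨b, hb, hb'⟩ := Finset.exists_of_ssubset (Finset.ssubset_iff_subset_ne.2 ⟨hBB, hne⟩)
      exact Finset.sum_lt_sum_of_subset hBB hb hb' (by positivity) (by simp)
    refine Submodule.subset_span ⟨_, smaller_of ((term_deg hs').trans hdeg)
      (term_wt_le hs') hw ⟨a, ?_, ?_⟩, rfl⟩
    · intro j hj
      have hj' : (j : ℕ) < k + m := hj
      have hoff : s' j = 0 := hs'.off (by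
        rw [mem_SS]; rintro (h | h)
        · omega
        · have := D.hSv j h; omega)
      rw [Pi.add_apply, hoff, add_zero]
      simp only [Fin.removeNth]
      rw [succAbove_lt hkm hj']
      exact heq j hj'
    · rw [Pi.add_apply, hsa, hwa, D.hfull a (by simp [ha]) (by simp [ha]; omega)]
      omega

theorem lemD (D : Data t ded k v r Sv) [Nonempty (Fin n)] {y : Fin (n + 1) → ℕ}
    (hdeg : ∑ i, y i = ∑ j, t j) (hw : LexLT (wt y) (wt t) ∨ wt y = wt t)
    (hkv : k + v < n + 1) (h1 : y ⟨k + v, hkv⟩ = 2 ^ r - 1)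
    (hlt : LexLT ((⟨k + v, hkv⟩ : Fin (n + 1)).removeNth y) (t - ded)) :
    T ⟨k + v, hkv⟩ (SS k v Sv v) (mono y) ∈ Low t := by
  have hSS : SS k v Sv v = Sv := by
    ext j; rw [mem_SS]
    constructor
    · rintro (h | h)
      · omega
      · exact h
    · exact Or.inr
  rw [hSS, T_mono, h1, bits_full, ← sub_add_cancel (q Sv (range r)) (mono ded), mul_add]
  apply Submodule.add_mem
  · apply mono_mul_mem _ D.hlead
    rintro s ⟨hs, hlt'⟩
    have hs' : Dist Sv (bits (y ⟨k + v, hkv⟩)) s := by rwa [h1, bits_full]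
    refine Submodule.subset_span ⟨_, smaller_of ((term_deg hs').trans hdeg)
      (term_wt_le hs') hw ?_, rfl⟩
    rw [← D.sub_add]
    exact (hlt.add_right s).trans (hlt'.add_left _)
  · rw [← mono_add]
    have hs' : Dist Sv (bits (y ⟨k + v, hkv⟩)) ded := by rw [h1, bits_full]; exact D.hdist
    refine Submodule.subset_span ⟨_, smaller_of ((term_deg hs').trans hdeg)
      (term_wt_le hs') hw ?_, rfl⟩
    conv => arg 2; rw [← D.sub_add]
    exact hlt.add_right ded

theorem lemD' (D : Data t ded k v r Sv) [Nonempty (Fin n)] (hk : k < n + 1)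
    (hkv : k + v < n + 1) :
    T ⟨k + v, hkv⟩ (SS k v Sv v) (mono (phi0 t ded ⟨k, hk⟩ r)) - mono t ∈ Low t := by
  have hSS : SS k v Sv v = Sv := by
    ext j; rw [mem_SS]
    constructor
    · rintro (h | h)
      · omega
      · exact h
    · exact Or.inr
  have h1 : phi0 t ded ⟨k, hk⟩ r ⟨k + v, hkv⟩ = 2 ^ r - 1 := D.phi_full hk (by simp) (by simp)
  rw [hSS, T_mono, h1, bits_full, D.phi_remove hk hkv]
  have e : mono t = mono (t - ded) * mono ded := by rw [← mono_add, D.sub_add]
  rw [e, ← mul_sub]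
  apply mono_mul_mem _ D.hlead
  rintro s ⟨hs, hlt'⟩
  have hs' : Dist Sv (bits (phi0 t ded ⟨k, hk⟩ r ⟨k + v, hkv⟩)) s := by rwa [h1, bits_full]
  have hdeg := term_deg hs'
  have hw := term_wt_le hs'
  rw [D.phi_remove hk hkv] at hdeg hw
  refine Submodule.subset_span ⟨_, smaller_of (hdeg.trans (D.phi_deg hk))
      hw (Or.inr (D.phi_wt hk)) ?_, rfl⟩
  conv => arg 2; rw [← D.sub_add]
  exact hlt'.add_left _

theorem TT_phi (D : Data t ded k v r Sv) [Nonempty (Fin n)] (hk : k < n + 1) :
    TT n k v Sv D.hkv (mono (phi0 t ded ⟨k, hk⟩ r)) - mono t ∈ Low t := by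
  have hkv := D.hkv
  unfold TT
  rw [LinearMap.sum_apply, Fin.sum_univ_castSucc, add_sub_assoc]
  apply Submodule.add_mem
  · apply Submodule.sum_mem
    intro m _
    have hm := m.isLt
    simp only [Fin.val_castSucc]
    exact lemB D (D.phi_deg hk) (Or.inr (D.phi_wt hk)) hm (by omega) (by omega)
      (D.phi_full hk (by simp) (by simp <;> omega)) (D.phi_full hk (by simp <;> omega) (by simp <;> omega))
  · simp only [Fin.val_last]
    exact lemD' D hk (by omega)

theorem TT_low (D : Data t ded k v r Sv) [Nonempty (Fin n)] (hk : k < n + 1)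
    {y : Fin (n + 1) → ℕ} (hy : Smaller y (phi0 t ded ⟨k, hk⟩ r)) :
    TT n k v Sv D.hkv (mono y) ∈ Low t := by
  have hkv := D.hkv
  obtain ⟨hdeg, hcase⟩ := hy
  have hdeg' : ∑ i, y i = ∑ j, t j := hdeg.trans (D.phi_deg hk)
  rw [D.phi_wt hk] at hcase
  unfold TT
  rw [LinearMap.sum_apply]
  rcases hcase with hw | ⟨hw, i0, hi, hlt⟩
  · exact Submodule.sum_mem _ (fun m _ => lemW hdeg' hw _ _)
  have hw' : LexLT (wt y) (wt t) ∨ wt y = wt t := Or.inr hw
  have hA : ∀ m : Fin (v + 1), (i0 : ℕ) < k + m →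
      T ⟨k + m, by omega⟩ (SS k v Sv m) (mono y) ∈ Low t := by
    intro m hm
    have hi0 : (i0 : ℕ) < n := by omega
    have e : (⟨i0, hi0⟩ : Fin n).castSucc = i0 := by ext; simp
    apply lemA D hdeg' hw' (m := m) (by omega) _ (i0 := ⟨i0, hi0⟩) hm
    · intro j hj
      have h1 : j.castSucc < i0 := hj
      have h2 : (j : ℕ) < i0 := hj
      rw [hi _ h1, D.phi_lt hk (by omega)]
    · rw [e]
      refine hlt.trans_eq ?_
      rw [← D.phi_lt hk (j := ⟨i0, hi0⟩) (by simp <;> omega), e]
  by_cases c1 : (i0 : ℕ) < k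
  · exact Submodule.sum_mem _ (fun m _ => hA m (by omega))
  by_cases c2 : (i0 : ℕ) ≤ k + v
  · have hyf : ∀ i : Fin (n + 1), k ≤ (i : ℕ) → i < i0 → y i = 2 ^ r - 1 := by
      intro i h1 h2
      have h3 : (i : ℕ) < i0 := h2
      exact (hi i h2).trans (D.phi_full hk h1 (by omega))
    have hlt' : y i0 < 2 ^ r - 1 := hlt.trans_eq (D.phi_full hk (by omega) c2)
    by_cases h0 : (i0 : ℕ) = k
    · apply Submodule.sum_mem
      intro m _
      by_cases hm : m = 0
      · subst hm
        have e : (⟨k + 0, by omega⟩ : Fin (n + 1)) = i0 := by ext; simp [h0]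
        have := lem0 (y := y) D (by omega) (by rw [e]; exact hlt')
        simp only [Fin.val_zero]
        rw [this]; exact Submodule.zero_mem _
      · have : (m : ℕ) ≠ 0 := fun h => hm (Fin.ext h)
        exact hA m (by omega)
    · obtain ⟨m1, hm1⟩ : ∃ m1 : ℕ, (i0 : ℕ) = k + (m1 + 1) := ⟨(i0 : ℕ) - k - 1, by omega⟩
      have hm1v : m1 < v := by omega
      have hC := lemC D hdeg' hw' (m := m1) hm1v (by omega) (by omega)
        (hyf _ (by simp) (by rw [Fin.lt_def]; simp <;> omega))
        (by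
          have e : (⟨k + (m1 + 1), by omega⟩ : Fin (n + 1)) = i0 := by ext; simp [hm1]
          rw [e]; exact hlt')
        (fun j hj => by
          rw [hi _ (by rw [Fin.lt_def]; simp <;> omega), D.phi_lt hk (by omega)])
      rw [← Finset.add_sum_erase _ _ (Finset.mem_univ (⟨m1, by omega⟩ : Fin (v + 1))),
        ← Finset.add_sum_erase _ _ (show (⟨m1 + 1, by omega⟩ : Fin (v + 1)) ∈
          Finset.univ.erase (⟨m1, by omega⟩ : Fin (v + 1)) by simp [Fin.ext_iff]), ← add_assoc]
      apply Submodule.add_mem _ hC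
      apply Submodule.sum_mem
      intro m hm
      simp only [Finset.mem_erase, Finset.mem_univ, and_true, ne_eq, Fin.ext_iff] at hm
      rcases lt_or_ge (m : ℕ) m1 with h | h
      · exact lemB D hdeg' hw' (by omega) (by omega) (by omega)
          (hyf _ (by simp) (by rw [Fin.lt_def]; simp <;> omega))
          (hyf _ (by simp <;> omega) (by rw [Fin.lt_def]; simp <;> omega))
      · exact hA m (by omega)
  · have hyf : ∀ i : Fin (n + 1), k ≤ (i : ℕ) → (i : ℕ) ≤ k + v → y i = 2 ^ r - 1 := by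
      intro i h1 h2
      exact (hi i (by rw [Fin.lt_def]; omega)).trans (D.phi_full hk h1 h2)
    rw [Fin.sum_univ_castSucc]
    apply Submodule.add_mem
    · apply Submodule.sum_mem
      intro m _
      have hm := m.isLt
      simp only [Fin.val_castSucc]
      exact lemB D hdeg' hw' hm (by omega) (by omega)
        (hyf _ (by simp) (by simp <;> omega)) (hyf _ (by simp <;> omega) (by simp <;> omega))
    · simp only [Fin.val_last]
      apply lemD D hdeg' hw' (by omega) (hyf _ (by simp) (by simp))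
      rw [← D.phi_remove hk (by omega)]
      have hi0 : (i0 : ℕ) - 1 < n := by omega
      refine ⟨⟨(i0 : ℕ) - 1, hi0⟩, ?_, ?_⟩
      · intro j hj
        have hj' : (j : ℕ) < (i0 : ℕ) - 1 := hj
        simp only [Fin.removeNth]
        apply hi
        rw [Fin.lt_def]
        by_cases hjk : (j : ℕ) < k + v
        · rw [succAbove_lt (by omega) hjk]; simp <;> omega
        · rw [succAbove_ge (by omega) (by omega)]; simp <;> omega
      · simp only [Fin.removeNth]
        rw [succAbove_ge (by omega) (by simp <;> omega)]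
        have e : (⟨(i0 : ℕ) - 1, hi0⟩ : Fin n).succ = i0 := by ext; simp <;> omega
        rw [e]; exact hlt

end Core

/-! ### From membership to admissibility -/

theorem mem_low_list {n : ℕ} {t : Fin n → ℕ} {f : P n} (hf : f ∈ Low t) :
    ∃ L : List (Fin n → ℕ), (∀ y ∈ L, Smaller y t) ∧ f = (L.map mono).sum := by
  induction hf using Submodule.span_induction with
  | mem x hx =>
    obtain ⟨z, hz, rfl⟩ := hx
    exact ⟨[z], by simpa using hz, by simp⟩
  | zero => exact ⟨[], by simp, by simp⟩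
  | add x y _ _ hx hy =>
    obtain ⟨L, hL, rfl⟩ := hx
    obtain ⟨L', hL', rfl⟩ := hy
    refine ⟨L ++ L', ?_, by simp⟩
    intro y hy
    rcases List.mem_append.1 hy with h | h
    · exact hL y h
    · exact hL' y h
  | smul a x _ hx =>
    obtain ⟨L, hL, rfl⟩ := hx
    have ha : a = 0 ∨ a = 1 := by revert a; decide
    rcases ha with rfl | rfl
    · exact ⟨[], by simp, by simp⟩
    · exact ⟨L, hL, by simp⟩

theorem list_mem_low {n : ℕ} {t : Fin n → ℕ} {L : List (Fin n → ℕ)} (hL : ∀ y ∈ L, Smaller y t) :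
    (L.map mono).sum ∈ Low t := by
  induction L with
  | nil => simp
  | cons a L ih =>
    rw [List.map_cons, List.sum_cons]
    exact Submodule.add_mem _ (Submodule.subset_span ⟨a, hL a (by simp), rfl⟩)
      (ih (fun y hy => hL y (by simp [hy])))

/-- A linear map sending hit elements to hit elements, `x` to `x'` plus smaller terms and
monomials below `x` to combinations of monomials below `x'` transports inadmissibility. -/
theorem transfer {m n : ℕ} {x : Fin m → ℕ} {t : Fin n → ℕ} (F : P m →ₗ[ZMod 2] P n)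
    (h1 : ∀ f ∈ hits m, F f ∈ hits n) (h2 : F (mono x) - mono t ∈ Low t)
    (h3 : ∀ y, Smaller y x → F (mono y) ∈ Low t) (h : Inadmissible x) : Inadmissible t := by
  obtain ⟨L, hL, hhit⟩ := h
  have h4 : F ((L.map mono).sum) ∈ Low t := by
    clear hhit
    induction L with
    | nil => simp
    | cons a L ih =>
      rw [List.map_cons, List.sum_cons, map_add]
      exact Submodule.add_mem _ (h3 a (hL a (by simp))) (ih (fun y hy => hL y (by simp [hy])))
  have h5 := h1 _ hhit
  rw [map_sub] at h5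
  have h6 : F ((L.map mono).sum) - (F (mono x) - mono t) ∈ Low t := Submodule.sub_mem _ h4 h2
  obtain ⟨L', hL', hL'e⟩ := mem_low_list h6
  refine ⟨L', hL', ?_⟩
  rw [← hL'e]
  convert h5 using 1
  abel


theorem core {n : ℕ} {t ded : Fin n → ℕ} {k v r : ℕ} {Sv : Finset (Fin n)}
    (D : Data t ded k v r Sv) (hk : k < n + 1)
    (h : Inadmissible (phi0 t ded ⟨k, hk⟩ r)) : Inadmissible t := by
  have hkv := D.hkv
  haveI : Nonempty (Fin n) := ⟨⟨k + v, hkv⟩⟩
  refine transfer (TT n k v Sv D.hkv) ?_ (TT_phi D hk) (fun y hy => TT_low D hk hy) h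
  intro f hf
  unfold TT
  rw [LinearMap.sum_apply]
  exact Submodule.sum_mem _ (fun m _ => T_hits _ _ hf)

theorem rho_inadmissible {n : ℕ} {t : Fin n → ℕ} (k : Fin (n + 1))
    (h : Inadmissible (Fin.insertNth (α := fun _ => ℕ) k 0 t)) : Inadmissible t := by
  have hrem : ∀ s : Fin (n + 1) → ℕ, s k = 0 → T k ∅ (mono s) = mono (k.removeNth s) := by
    intro s hs
    rw [T_mono, q_empty, hs]; simp [bits]
  refine transfer (T k ∅) (fun f hf => T_hits _ _ hf) ?_ ?_ h
  · rw [hrem _ (by simp), Fin.removeNth_insertNth, sub_self]; exact Submodule.zero_mem _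
  · intro y hy
    by_cases hyk : y k = 0
    · rw [hrem _ hyk]
      refine Submodule.subset_span ⟨_, ?_, rfl⟩
      obtain ⟨hdeg, hcase⟩ := hy
      have hw : ∀ s : Fin (n + 1) → ℕ, s k = 0 → wt s = wt (k.removeNth s) := by
        intro s hs; funext b; rw [wt_succAbove s k b, hs]; simp
      have hd : ∀ s : Fin (n + 1) → ℕ, s k = 0 → ∑ i, s i = ∑ j, k.removeNth s j := by
        intro s hs; rw [Fin.sum_univ_succAbove _ k, hs, zero_add]; rfl
      rw [hd _ hyk, hd _ (by simp), Fin.removeNth_insertNth] at hdeg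
      rw [hw _ hyk, hw _ (by simp), Fin.removeNth_insertNth] at hcase
      refine ⟨hdeg, ?_⟩
      rcases hcase with h | ⟨h, i0, hi, hlt⟩
      · exact Or.inl h
      · refine Or.inr ⟨h, ?_⟩
        have hne : i0 ≠ k := by
          intro he; rw [he] at hlt; simp at hlt
        obtain ⟨j0, rfl⟩ := Fin.exists_succAbove_eq hne
        refine ⟨j0, ?_, ?_⟩
        · intro j hj
          have := hi (k.succAbove j) ((Fin.strictMono_succAbove k) hj)
          simpa [Fin.removeNth] using this
        · simpa [Fin.removeNth] using hlt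
    · rw [T_mono, q_empty, if_neg, mul_zero]
      · exact Submodule.zero_mem _
      · intro hb
        have := val_bits (y k)
        rw [hb] at this
        exact hyk (by simpa [val] using this.symm)

/-! ### Sum's maps -/

/-- The pair `(k; K)` with `K = (k_1 < ... < k_r)` and `k < k_1`. Variables are indexed from 0;
`κ m` is the index of `x_{k_m - 1}` in the smaller polynomial algebra, so the corresponding
element of `K` has index `κ m + 1`, and `k < k_m` says `k ≤ κ m`. -/
def IsPair {n r : ℕ} (k : Fin (n + 1)) (κ : Fin r → Fin n) : Prop :=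
  StrictMono κ ∧ ∀ m, (k : ℕ) ≤ κ m

/-- The condition attached to the index `u` in the definition of `phi`, with `t` the exponent
vector (`u` and `m` are counted from 0, so `r - m` in the usual numbering is `r - 1 - m`). -/
def Cond {n r : ℕ} (t : Fin n → ℕ) (κ : Fin r → Fin n) (u : Fin r) : Prop :=
  (∀ m, m < u → t (κ m) = 2 ^ r - 1) ∧ 2 ^ r - 1 < t (κ u) ∧
  (∀ m : Fin r, m ≤ u → (t (κ u)).testBit (r - 1 - m) = true) ∧
  (∀ m : Fin r, u < m → (t (κ m)).testBit (r - 1 - m) = true)

/-- The exponent vector of `x_{(K,u)}`, the exponent of `x_{k_m}` being recorded at `κ m`. -/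
def xKu {n r : ℕ} (κ : Fin r → Fin n) (u : Fin r) (j : Fin n) : ℕ :=
  ∑ m : Fin r, if κ m = j then
    (if m = u then ∑ i ∈ range (u + 1), 2 ^ (r - 1 - i) else if u < m then 2 ^ (r - 1 - m) else 0)
    else 0

/-- The exponent vector of `x_k ^ (2 ^ r - 1) ρ_{(k,d)}(x) / x_{(K,u)}`. -/
def phi {n r : ℕ} (k : Fin (n + 1)) (κ : Fin r → Fin n) (u : Fin r) (t : Fin n → ℕ) :
    Fin (n + 1) → ℕ :=
  Fin.insertNth (α := fun _ => ℕ) k (2 ^ r - 1) (fun j => t j - xKu κ u j)

theorem geom (r : ℕ) : ∀ u, u < r → ∑ i ∈ range (u + 1), 2 ^ (r - 1 - i) = 2 ^ r - 2 ^ (r - 1 - u) := by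
  intro u
  induction u with
  | zero =>
    intro h
    obtain ⟨r', rfl⟩ : ∃ r', r = r' + 1 := ⟨r - 1, by omega⟩
    simp [pow_succ]; omega
  | succ u ih =>
    intro h
    rw [Finset.sum_range_succ, ih (by omega)]
    obtain ⟨w, rfl⟩ : ∃ w, r = u + 2 + w := ⟨r - u - 2, by omega⟩
    have e1 : u + 2 + w - 1 - u = w + 1 := by omega
    have e2 : u + 2 + w - 1 - (u + 1) = w := by omega
    rw [e1, e2]
    have h1 : 2 ^ (w + 1) ≤ 2 ^ (u + 2 + w) := Nat.pow_le_pow_right (by norm_num) (by omega)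
    have h2 : 2 ^ (w + 1) = 2 * 2 ^ w := by rw [pow_succ]; ring
    omega

theorem xKu_u {n r : ℕ} {κ : Fin r → Fin n} (hκ : StrictMono κ) (u : Fin r) :
    xKu κ u (κ u) = 2 ^ r - 2 ^ (r - 1 - u) := by
  unfold xKu
  rw [Finset.sum_eq_single u]
  · simp [geom r u u.isLt]
  · intro m _ hm; simp [hκ.injective.ne hm]
  · simp

theorem xKu_gt {n r : ℕ} {κ : Fin r → Fin n} (hκ : StrictMono κ) {u m : Fin r} (h : u < m) :
    xKu κ u (κ m) = 2 ^ (r - 1 - m) := by
  unfold xKu
  rw [Finset.sum_eq_single m]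
  · simp [h.ne', h]
  · intro m' _ hm; simp [hκ.injective.ne hm]
  · simp

theorem xKu_off {n r : ℕ} {κ : Fin r → Fin n} {u : Fin r} {j : Fin n}
    (h : ∀ m, u ≤ m → κ m ≠ j) : xKu κ u j = 0 := by
  unfold xKu
  apply Finset.sum_eq_zero
  intro m _
  by_cases hm : u ≤ m
  · simp [h m hm]
  · have h1 : m ≠ u := by rintro rfl; exact hm le_rfl
    have h2 : ¬ u < m := fun h => hm h.le
    simp [h1, h2]

theorem le_kappa {n r : ℕ} {k : Fin (n + 1)} {κ : Fin r → Fin n} (h : IsPair k κ) :
    ∀ (m : ℕ) (hm : m < r), (k : ℕ) + m ≤ κ ⟨m, hm⟩ := by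
  intro m
  induction m with
  | zero => intro hm; simpa using h.2 ⟨0, hm⟩
  | succ m ih =>
    intro hm
    have h1 := ih (by omega)
    have h2 : κ ⟨m, by omega⟩ < κ ⟨m + 1, hm⟩ := h.1 (by simp [Fin.lt_def])
    rw [Fin.lt_def] at h2
    omega

theorem data_of {n r : ℕ} {k : Fin (n + 1)} {κ : Fin r → Fin n} {u : Fin r} {t : Fin n → ℕ}
    (hp : IsPair k κ) (hc : Cond t κ u)
    (hf : ∀ j : Fin n, (k : ℕ) ≤ j → (j : ℕ) < k + u → t j = 2 ^ r - 1) :
    Data t (xKu κ u) k u r ((Finset.Ici u).image κ) := by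
  have hku : (k : ℕ) + u ≤ κ u := le_kappa hp u u.isLt
  haveI : Nonempty (Fin n) := ⟨κ u⟩
  set S0 : Finset (Fin n) := (Finset.Ioi u).image κ with hS0
  have hcard0 : S0.card = r - 1 - u := by
    rw [hS0, Finset.card_image_of_injective _ hp.1.injective, Fin.card_Ioi]
  have hins : (Finset.Ici u).image κ = insert (κ u) S0 := by
    rw [hS0, ← Finset.image_insert]
    congr 1
    ext m
    simp only [Finset.mem_Ici, Finset.mem_insert, Finset.mem_Ioi, le_iff_eq_or_lt, eq_comm]
  have hlt : ∀ x ∈ S0, κ u < x := by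
    intro x hx
    obtain ⟨m, hm, rfl⟩ := Finset.mem_image.1 hx
    exact hp.1 (Finset.mem_Ioi.1 hm)
  have hded : xKu κ u = Pi.single (κ u) (2 ^ r - 2 ^ S0.card) + top S0 := by
    funext j
    rw [Pi.add_apply]
    by_cases hj : ∃ m, u ≤ m ∧ κ m = j
    · obtain ⟨m, hm, rfl⟩ := hj
      rcases hm.eq_or_lt with rfl | hm
      · have hn : κ u ∉ S0 := fun h => lt_irrefl _ (hlt _ h)
        rw [xKu_u hp.1, Pi.single_eq_same, hcard0, top, if_neg hn, add_zero]
      · have hne : κ m ≠ κ u := (hp.1 hm).ne'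
        have hmem : κ m ∈ S0 := Finset.mem_image_of_mem _ (Finset.mem_Ioi.2 hm)
        have hfil : S0.filter (fun i => κ m < i) = (Finset.Ioi m).image κ := by
          ext x
          simp only [hS0, Finset.mem_filter, Finset.mem_image, Finset.mem_Ioi]
          constructor
          · rintro ⟨⟨m', _, rfl⟩, h⟩
            exact ⟨m', hp.1.lt_iff_lt.1 h, rfl⟩
          · rintro ⟨m', h, rfl⟩
            exact ⟨⟨m', hm.trans h, rfl⟩, hp.1 h⟩
        rw [xKu_gt hp.1 hm, Pi.single_eq_of_ne hne, zero_add, top, if_pos hmem, hfil,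
          Finset.card_image_of_injective _ hp.1.injective, Fin.card_Ioi]
    · push Not at hj
      have hn : j ∉ S0 := by
        intro h
        obtain ⟨m, hm, rfl⟩ := Finset.mem_image.1 h
        exact hj m (Finset.mem_Ioi.1 hm).le rfl
      rw [xKu_off (fun m hm => hj m hm), Pi.single_eq_of_ne (hj u le_rfl).symm, top, if_neg hn]
  have hlead := lead_step (r := r) hlt (by omega) (lead_top S0).1 (lead_top S0).2
  rw [← hins, ← hded] at hlead
  refine ⟨by have := (κ u).isLt; omega, u.isLt, ?_, ?_, hf, hlead.1, hlead.2, ?_⟩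
  · intro j hj
    obtain ⟨m, hm, rfl⟩ := Finset.mem_image.1 hj
    have : κ u ≤ κ m := hp.1.monotone (Finset.mem_Ici.1 hm)
    rw [Fin.le_def] at this; omega
  · rw [Finset.card_image_of_injective _ hp.1.injective, Fin.card_Ici]; omega
  · intro j b hb
    by_cases hj : ∃ m, u ≤ m ∧ κ m = j
    · obtain ⟨m, hm, rfl⟩ := hj
      rcases hm.eq_or_lt with rfl | hm
      · rw [xKu_u hp.1] at hb
        have hu := u.isLt
        have hsub : range (r - 1 - u) ⊆ range r := Finset.range_subset_range.2 (by omega)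
        have hv := val_sdiff_add hsub
        rw [val_range, val_range] at hv
        have h1 : 0 < 2 ^ (r - 1 - (u : ℕ)) := by positivity
        have h2 : 0 < 2 ^ r := by positivity
        have h3 : 2 ^ (r - 1 - (u : ℕ)) ≤ 2 ^ r := Nat.pow_le_pow_right (by norm_num) (by omega)
        have h4 : 2 ^ r - 2 ^ (r - 1 - (u : ℕ)) = val (range r \ range (r - 1 - u)) := by omega
        rw [h4, testBit_val] at hb
        simp only [Finset.mem_sdiff, Finset.mem_range, decide_eq_true_eq] at hb
        have := hc.2.2.1 ⟨r - 1 - b, by omega⟩ (by rw [Fin.le_def]; simp <;> omega)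
        simp only at this
        rwa [show r - 1 - (r - 1 - b) = b by omega] at this
      · rw [xKu_gt hp.1 hm, Nat.testBit_two_pow, decide_eq_true_eq] at hb
        rw [← hb]; exact hc.2.2.2 m hm
    · push Not at hj
      rw [xKu_off (fun m hm => hj m hm)] at hb
      simp at hb

/-! ### The statement -/

/-- A monomial is admissible when it is not inadmissible. -/
def Admissible {d : ℕ} (u : Fin d → ℕ) : Prop := ¬ Inadmissible u

/-- The degree of a weight vector. -/
noncomputable def degW (ω : ℕ →₀ ℕ) : ℕ := ω.sum (fun i a => 2 ^ i * a)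

/-- The admissible monomials of `P_d(ω)`, those of the degree of `ω` and of weight at most `ω`. -/
def B (d : ℕ) (ω : ℕ →₀ ℕ) : Set (Fin d → ℕ) :=
  {u | Admissible u ∧ ∑ i, u i = degW ω ∧ (LexLT (wt u) ω ∨ wt u = ω)}

/-- The union over `k` of the images `ρ_{(k,d)}(U)`. -/
def PhiZero {n : ℕ} (U : Set (Fin n → ℕ)) : Set (Fin (n + 1) → ℕ) :=
  {s | ∃ k : Fin (n + 1), ∃ t ∈ U, s = Fin.insertNth (α := fun _ => ℕ) k 0 t}

/-- The monomials `phi_{(k;K)}(x)` with `x` in `U`, `K` nonempty and `x` in the domain where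
`phi` is not zero, such that moreover the `u - 1` exponents of `x` at the places
`k, ..., k + u - 2` (in the usual numbering) are all equal to `2 ^ r - 1`. For `u = 1` this
last condition is empty. -/
def PhiFull {n : ℕ} (U : Set (Fin n → ℕ)) : Set (Fin (n + 1) → ℕ) :=
  {s | ∃ (k : Fin (n + 1)) (r : ℕ) (κ : Fin r → Fin n) (u : Fin r), IsPair k κ ∧
    ∃ t ∈ U, Cond t κ u ∧ (∀ j : Fin n, (k : ℕ) ≤ j → (j : ℕ) < k + u → t j = 2 ^ r - 1) ∧
      s = phi k κ u t}

/-- Sum's conjecture for the maps `ρ` and for all `phi_{(k;K)}` on the monomials described in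
`PhiFull` (in particular on all monomials with `u = 1`). -/
theorem result (n : ℕ) (ω : ℕ →₀ ℕ) :
    PhiZero (B n ω) ∪ PhiFull (B n ω) ⊆ B (n + 1) ω := by
  rintro s (⟨k, t, ⟨ht1, ht2, ht3⟩, rfl⟩ | ⟨k, r, κ, u, hp, t, ⟨ht1, ht2, ht3⟩, hc, hf, rfl⟩)
  · refine ⟨fun h => ht1 (rho_inadmissible k h), ?_, ?_⟩
    · rw [Fin.sum_univ_succAbove _ k]; simpa using ht2
    · have : wt (Fin.insertNth (α := fun _ => ℕ) k 0 t) = wt t := by
        funext b; rw [wt_succAbove _ k b, Fin.removeNth_insertNth]; simp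
      rw [this]; exact ht3
  · have D := data_of hp hc hf
    have e : phi k κ u t = phi0 t (xKu κ u) ⟨k, k.isLt⟩ r := rfl
    refine ⟨fun h => ht1 (core D k.isLt (by rw [← e]; exact h)), ?_, ?_⟩
    · rw [e, D.phi_deg k.isLt]; exact ht2
    · rw [e, D.phi_wt k.isLt]; exact ht3

end Pool.Agent.Results.MP_27a5c7_al.SumMaps
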